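import Pool.Agent.U84.AWQ.Stm
import Pool.Agent.R456.CL.Sa456
import Pool.Agent.R456.CL.Cut456
import Pool.Agent.R456.CL.Sup
import Pool.Agent.R456.CL.AddO
import Pool.Agent.R456.CL.LR
import Pool.Agent.R456.CL.SB
import Pool.Agent.R456.CL.W2

set_option autoImplicit false

namespace Pool.Agent.U84.AWQ

open Pool.Agent.R456.CL

universe u

theorem half_of_inf {A : Type u} [CStarAlgebra A] (h1 : PI (1 : A)) (hI : PInfL A) : PHalf A := by
  obtain ⟨g1, g2, hg1, hg2, h12, _, _, ⟨v1, a1, a2⟩, ⟨v2, b1, b2⟩⟩ := hI 1 h1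
  refine ⟨v1, v2, a1, b1, ?_⟩
  have c1 : star v1 * g1 = star v1 := by rw [← a2, ← mul_assoc, a1, one_mul]
  have c2 : g2 * v2 = v2 := by rw [← b2, mul_assoc, b1, mul_one]
  calc star v1 * v2 = (star v1 * g1) * (g2 * v2) := by rw [c1, c2]
    _ = star v1 * (g1 * g2) * v2 := by simp only [mul_assoc]
    _ = 0 := by rw [h12, mul_zero, zero_mul]

/-- The assembly: all packages give the theorem. -/
theorem assembly
    (cutu : S_CUTU.{u}) (nrm : S_NRM.{u}) (glue : S_GLUE.{u}) (cs : S_CS.{u}) (zorn : S_ZORN.{u})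
    (gco : S_GCO.{u}) (inf1 : S_INF1.{u}) (inf2 : S_INF2.{u}) (add : S_ADD.{u}) (gc : S_GC.{u})
    (dich : S_DICH.{u}) (join : S_JOIN.{u}) (hull : S_HULL.{u}) (main1 : S_MAIN1.{u})
    (main3 : S_MAIN3.{u}) (main : S_MAIN.{u}) (casea : S_CASEA.{u}) (finc : S_FINC.{u})
    (fin : S_FIN.{u}) (w1 : S_W1.{u}) (cb : S_CB.{u}) (step : S_STEP.{u}) (desc : S_DESC.{u})
    (ga : S_GA.{u}) (gb : S_GB.{u}) (glob : S_GLOB.{u}) (final : S_FINAL.{u})
    (A : Type u) [CStarAlgebra A] (hAW : IsAWStar A) (h1 : PI (1 : A)) (x : A) :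
    ∃ (v : Aˣ) (e : A), e * e = e ∧ x = (v : A) + e := by
  have hsa : PSa A := sa456_ok A hAW
  have hcut : PCut A := cut456_ok A hsa
  have hsupO : PSupO A := Sup.supO_ok A hAW hcut
  have hsup : PSup A := Sup.sup_ok A hsupO hcut
  have haddO : PAddO A := AddO.addO_ok A hsupO
  have hcutu : PCutU A := cutu A hsa
  have hnrm : PNorm A := nrm A hsa
  have hglue : PGlue A := glue A hsa hsupO hnrm
  have hz0 : PZ0 A := cs A hsup hcut
  have hzorn : PZorn A := zorn A hsupO
  have hgco : PGCO A := gco A hcut hsupO hz0 haddO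
  have hinf1 : PInf1L A := inf1 A hsup haddO hgco
  have hinf : PInfL A := inf2 A hsup haddO hzorn hglue hinf1
  have hhalf : PHalf A := half_of_inf h1 hinf
  have hadd : PAdd A := add A hhalf haddO
  have hgc : PGC A := gc A hhalf hgco
  have hlr : PLR A := LR.lr_ok A hcut hsup hadd
  have hsb : PSB A := SB.sB_ok A hsup
  have hw2 : PW2 A := W2.w2_ok A hsup hadd
  have hdich : PDichL A := dich A hinf hlr hgc
  have hjoin : PJoinL A := join A hlr hdich
  have hhull : PHull A := hull A hsup hlr hadd hinf hsb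
  have hm1 : PMain1L A := main1 A hcutu hjoin
  have hm3 : PMain3L A := main3 A hsa hdich
  have hm : PMainL A := main A hm1 hm3 hjoin
  have hca : PCaseAL A := casea A hcut hinf hsb
  have hfinc : PFinC A := finc A hgc
  have hfin : PFin A := fin A hcut hfinc
  have hw1 : PW1L A := w1 A hsup hinf hadd hgc
  have hcb : PCB A := cb A
  have hstep : PStep A := step A hcb hm hhull
  have hdesc : PDesc A := desc A hcb hstep hw1 hw2
  have hglob : PGlob A := glob A h1 hsup hzorn hdesc (ga A hglue hnrm) (gb A hglue hnrm)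
  obtain ⟨P, _, _, hPP, h3, h4, y, h5, h6, h7, h8⟩ := final A hca hfin hglob x
  exact ⟨⟨x - P, y, h8, h7⟩, P, hPP, by simp⟩

end Pool.Agent.U84.AWQ
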