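import Pool.Agent.U84.AWQ.Stm

/-!
# Project AWQ, second part: all AW*-algebras (MP_3fc7b1_an, Q2 in full)

The finite part and the passage to the properly infinite part.
-/

set_option autoImplicit false

namespace Pool.Agent.U84.AWQ

open Pool.Agent.R456.CL

universe u

section props

variable (A : Type u) [CStarAlgebra A]

/-- two projections split into equivalent parts and parts orthogonal to the other projection. -/
def PPos : Prop := ∀ e f : A, PJ e → PJ f → ∃ e1 e2 f1 f2 : A, PJ e1 ∧ PJ e2 ∧ PJ f1 ∧ PJ f2 ∧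
  e1 * e2 = 0 ∧ f1 * f2 = 0 ∧ e1 + e2 = e ∧ f1 + f2 = f ∧ Eqv e1 f1 ∧ e2 * f = 0 ∧ f2 * e = 0

/-- the central decomposition into a finite and a properly infinite part. -/
def PCDec : Prop := ∃ z : A, CP z ∧ ¬ Infin z ∧ PI (1 - z)

/-- clean summands. -/
def PSum : Prop := ∀ z T : A, CP z → CleanIn z (z * T) → CleanIn (1 - z) ((1 - z) * T) →
  CleanIn 1 T

end props

/-- Package POS. -/
def S_POS : Prop := ∀ (A : Type u) [CStarAlgebra A], PSup A → PCut A → PPos A
/-- Package GCA. -/
def S_GCA : Prop := ∀ (A : Type u) [CStarAlgebra A], PPos A → PGCO A → PGC A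
/-- Package CDEC. -/
def S_CDEC : Prop := ∀ (A : Type u) [CStarAlgebra A], PSupO A → PZorn A → PCDec A
/-- Package SUM. -/
def S_SUM : Prop := ∀ (A : Type u) [CStarAlgebra A], PSum A
/-- Package CORN. -/
def S_CORN : Prop := ∀ (A : Type u) [CStarAlgebra A], PSa A → PSupO A → ∀ z : A, CP z → PI z →
  (∀ (B : Type u) [CStarAlgebra B], PSa B → PSupO B → PI (1 : B) → ∀ T : B, CleanIn 1 T) →
  ∀ T : A, CleanIn z (z * T)

end Pool.Agent.U84.AWQ
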