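import Pool.Agent.U84.AWQ.Asm
import Pool.Agent.U84.AWQ.Stm2

set_option autoImplicit false

namespace Pool.Agent.U84.AWQ

open Pool.Agent.R456.CL

universe u

/-- all packages of part one as one structure of hypotheses -/
structure Packs : Prop where
  cutu : S_CUTU.{u}
  nrm : S_NRM.{u}
  glue : S_GLUE.{u}
  cs : S_CS.{u}
  zorn : S_ZORN.{u}
  gco : S_GCO.{u}
  inf1 : S_INF1.{u}
  inf2 : S_INF2.{u}
  add : S_ADD.{u}
  dich : S_DICH.{u}
  join : S_JOIN.{u}
  hull : S_HULL.{u}
  main1 : S_MAIN1.{u}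
  main3 : S_MAIN3.{u}
  main : S_MAIN.{u}
  casea : S_CASEA.{u}
  finc : S_FINC.{u}
  fin : S_FIN.{u}
  w1 : S_W1.{u}
  cb : S_CB.{u}
  step : S_STEP.{u}
  desc : S_DESC.{u}
  ga : S_GA.{u}
  gb : S_GB.{u}
  glob : S_GLOB.{u}
  final : S_FINAL.{u}
  gc : S_GC.{u}

/-- properly infinite algebras with spectral approximation and orthogonal suprema. -/
theorem assembly_pi (P : Packs.{u}) (A : Type u) [CStarAlgebra A] (hsa : PSa A) (hsupO : PSupO A)
    (h1 : PI (1 : A)) (x : A) : CleanIn 1 x := by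
  have hcut : PCut A := cut456_ok A hsa
  have hsup : PSup A := Sup.sup_ok A hsupO hcut
  have haddO : PAddO A := AddO.addO_ok A hsupO
  have hcutu : PCutU A := P.cutu A hsa
  have hnrm : PNorm A := P.nrm A hsa
  have hglue : PGlue A := P.glue A hsa hsupO hnrm
  have hz0 : PZ0 A := P.cs A hsup hcut
  have hzorn : PZorn A := P.zorn A hsupO
  have hgco : PGCO A := P.gco A hcut hsupO hz0 haddO
  have hinf1 : PInf1L A := P.inf1 A hsup haddO hgco
  have hinf : PInfL A := P.inf2 A hsup haddO hzorn hglue hinf1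
  have hhalf : PHalf A := half_of_inf h1 hinf
  have hadd : PAdd A := P.add A hhalf haddO
  have hgc : PGC A := P.gc A hhalf hgco
  have hlr : PLR A := LR.lr_ok A hcut hsup hadd
  have hsb : PSB A := SB.sB_ok A hsup
  have hw2 : PW2 A := W2.w2_ok A hsup hadd
  have hdich : PDichL A := P.dich A hinf hlr hgc
  have hjoin : PJoinL A := P.join A hlr hdich
  have hhull : PHull A := P.hull A hsup hlr hadd hinf hsb
  have hm1 : PMain1L A := P.main1 A hcutu hjoin
  have hm3 : PMain3L A := P.main3 A hsa hdich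
  have hm : PMainL A := P.main A hm1 hm3 hjoin
  have hca : PCaseAL A := P.casea A hcut hinf hsb
  have hfinc : PFinC A := P.finc A hgc
  have hfin : PFin A := P.fin A hcut hfinc
  have hw1 : PW1L A := P.w1 A hsup hinf hadd hgc
  have hcb : PCB A := P.cb A
  have hstep : PStep A := P.step A hcb hm hhull
  have hdesc : PDesc A := P.desc A hcb hstep hw1 hw2
  have hglob : PGlob A := P.glob A h1 hsup hzorn hdesc (P.ga A hglue hnrm) (P.gb A hglue hnrm)
  exact P.final A hca hfin hglob x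

/-- The final assembly: every AW*-algebra is clean. -/
theorem assembly_all (P : Packs.{u}) (pos : S_POS.{u}) (gca : S_GCA.{u}) (cdec : S_CDEC.{u})
    (sum : S_SUM.{u}) (corn : S_CORN.{u}) (A : Type u) [CStarAlgebra A] (hAW : IsAWStar A)
    (x : A) : ∃ (v : Aˣ) (e : A), e * e = e ∧ x = (v : A) + e := by
  have hsa : PSa A := sa456_ok A hAW
  have hcut : PCut A := cut456_ok A hsa
  have hsupO : PSupO A := Sup.supO_ok A hAW hcut
  have hsup : PSup A := Sup.sup_ok A hsupO hcut
  have haddO : PAddO A := AddO.addO_ok A hsupO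
  have hz0 : PZ0 A := P.cs A hsup hcut
  have hgco : PGCO A := P.gco A hcut hsupO hz0 haddO
  have hgc : PGC A := gca A (pos A hsup hcut) hgco
  have hfin : PFin A := P.fin A hcut (P.finc A hgc)
  obtain ⟨z, hz, hzf, hzi⟩ := cdec A hsupO (P.zorn A hsupO)
  have hzz : z * z = z := hz.1.isIdempotentElem
  have hzs : star z = z := hz.1.isSelfAdjoint
  have h1 : CleanIn z (z * x) := by
    refine hfin z (z * x) hz.1 hzf ?_ ?_
    · rw [← mul_assoc, hzz]
    · rw [mul_assoc, ← hz.2 x, ← mul_assoc, hzz]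
  have hz' : CP (1 - z) := by
    refine ⟨⟨?_, ?_⟩, fun y => ?_⟩
    · unfold IsIdempotentElem
      rw [sub_mul, mul_sub, mul_sub, hzz]; simp
    · unfold IsSelfAdjoint
      rw [star_sub, hzs, star_one]
    · rw [sub_mul, mul_sub, hz.2 y, one_mul, mul_one]
  have h2 : CleanIn (1 - z) ((1 - z) * x) :=
    corn A hsa hsupO (1 - z) hz' hzi (fun B _ hB1 hB2 hB3 T => assembly_pi P B hB1 hB2 hB3 T) x
  obtain ⟨Q, _, _, hQQ, h3, h4, y, h5, h6, h7, h8⟩ := sum A z x hz h1 h2
  exact ⟨⟨x - Q, y, h8, h7⟩, Q, hQQ, by simp⟩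

end Pool.Agent.U84.AWQ
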