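import Pool.Agent.R456.CL.Stm

/-!
# Project AWQ: every properly infinite AW*-algebra is a clean ring (MP_3fc7b1_an, Q2)

Definitions and statements of the packages. Package `X` is to prove `theorem t_X : S_X`.
The starting library `Pool.Agent.R456.CL` (factors) is the template of nearly all packages;
`PJ`, `Le`, `Eqv`, `Sub`, `Infin`, `IsSup`, `Iso`, `CleanIn`, `IsAWStar`, `PSa`, `PCut`, `PSupO`,
`PSup`, `PAddO`, `PAdd`, `PLR`, `PSB`, `PW2`, `PFin` are defined in `Pool.Agent.R456.CL.Defs`.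
-/

set_option autoImplicit false

namespace Pool.Agent.U84.AWQ

open Pool.Agent.R456.CL

universe u

section defs

variable {A : Type u} [CStarAlgebra A]

/-- `z` is a central projection. -/
def CP (z : A) : Prop := PJ z ∧ ∀ x : A, z * x = x * z

/-- `g` is a properly infinite projection: `z g` is zero or infinite for each central projection `z`. -/
def PI (g : A) : Prop := PJ g ∧ ∀ z : A, CP z → z * g ≠ 0 → Infin (z * g)

/-- `s` is nowhere as large as `g`. -/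
def Small (g s : A) : Prop := ∀ z : A, CP z → z * g ≠ 0 → ¬ Sub (z * g) (z * s)

/-- `T` has in the corner `g A g` an invertible entry between two orthogonal copies of `g`, with an
inverse of norm at most `K`. -/
def CA (K : ℝ) (g T : A) : Prop :=
  ∃ e f y : A, PJ e ∧ PJ f ∧ Le e g ∧ Le f g ∧ e * f = 0 ∧ Eqv g e ∧ Eqv g f ∧
    e * y = y ∧ y * f = y ∧ y * (f * T * e) = e ∧ (f * T * e) * y = f ∧ ‖y‖ ≤ K

/-- the corner `r T r` is clean, with explicit bounds. -/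
def CB (r T : A) : Prop :=
  ∃ P y : A, r * P = P ∧ P * r = P ∧ P * P = P ∧ ‖P‖ ≤ 1 ∧ r * y = y ∧ y * r = y ∧
    y * (r * T * r - P) = r ∧ (r * T * r - P) * y = r ∧ ‖y‖ ≤ 8

/-- final alternative A over the central projection `z`. -/
def DA (T z : A) : Prop :=
  ∃ g : A, PI g ∧ Le g z ∧ T * g = g * T ∧ CB (z - g) T ∧ CA 4000 g (g * T)

/-- final alternative B over the central projection `z`. -/
def DB (T z : A) : Prop :=
  ∃ g k : A, PJ g ∧ Le g z ∧ T * g = g * T ∧ CB (z - g) T ∧ PJ k ∧ Le k g ∧ ¬ Infin k ∧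
    CB (g - k) T

end defs

section props

variable (A : Type u) [CStarAlgebra A]

/-- spectral cut with a bound of the inverse. -/
def PCutU : Prop := ∀ x : A, ∀ ε : ℝ, 0 < ε → ∃ k s : A, PJ k ∧ k * s = s ∧ s * k = s ∧
  star s = s ∧ k * (star x * x) = (star x * x) * k ∧ s * s * (star x * x) = k ∧
  (star x * x) * (s * s) = k ∧ s * (star x * x) * s = k ∧ ‖x * (1 - k)‖ ≤ ε ∧ ‖s‖ ≤ 2 / ε

/-- gluing of bounded families in orthogonal corners. -/
def PGlue : Prop := ∀ (ι : Type u) (r x : ι → A) (E : A) (M : ℝ), (∀ i, PJ (r i)) →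
  (∀ i j, i ≠ j → r i * r j = 0) → IsSup r E → (∀ i, r i * x i = x i) → (∀ i, x i * r i = x i) →
  (∀ i, ‖x i‖ ≤ M) →
  ∃ X : A, E * X = X ∧ X * E = X ∧ (∀ i, r i * X = x i) ∧ ∀ i, X * r i = x i

/-- the norm of a diagonal element is the supremum of the norms of its pieces. -/
def PNorm : Prop := ∀ (ι : Type u) (r : ι → A) (E Y : A) (c : ℝ), 0 ≤ c → (∀ i, PJ (r i)) →
  (∀ i j, i ≠ j → r i * r j = 0) → IsSup r E → E * Y = Y → Y * E = Y →
  (∀ i, r i * Y = Y * r i) → (∀ i, ‖r i * Y‖ ≤ c) → ‖Y‖ ≤ c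

/-- centrally separated projections. -/
def PZ0 : Prop := ∀ e f : A, PJ e → PJ f → (∀ x : A, e * x * f = 0) →
  ∃ z : A, CP z ∧ e * z = e ∧ f * z = 0

/-- exhaustion by central projections. -/
def PZorn : Prop := ∀ (z0 : A), CP z0 → ∀ Φ : A → Prop,
  (∀ z : A, CP z → z ≠ 0 → z * z0 = z → ∃ z' : A, CP z' ∧ z' ≠ 0 ∧ z' * z = z' ∧ Φ z') →
  ∃ (ι : Type u) (w : ι → A), (∀ i, CP (w i)) ∧ (∀ i, Φ (w i)) ∧
    (∀ i j, i ≠ j → w i * w j = 0) ∧ (∀ i, w i * z0 = w i) ∧ IsSup w z0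

/-- generalized comparability of orthogonal projections. -/
def PGCO : Prop := ∀ e f : A, PJ e → PJ f → e * f = 0 →
  ∃ z : A, CP z ∧ Sub (z * e) (z * f) ∧ Sub ((1 - z) * f) ((1 - z) * e)

/-- generalized comparability. -/
def PGC : Prop := ∀ e f : A, PJ e → PJ f →
  ∃ z : A, CP z ∧ Sub (z * e) (z * f) ∧ Sub ((1 - z) * f) ((1 - z) * e)

/-- a large homogeneous family in a properly infinite projection, after a central cut. -/
def PInf1L : Prop := ∀ g : A, PI g → g ≠ 0 → ∃ z : A, CP z ∧ z * g ≠ 0 ∧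
  ∃ (ι : Type u) (q : ι → A) (E : A), Infinite ι ∧ (∀ i, PJ (q i)) ∧
    (∀ i j, i ≠ j → q i * q j = 0) ∧ (∀ i, Le (q i) (z * g)) ∧ (∀ i j, Eqv (q i) (q j)) ∧
    IsSup q E ∧ ∀ i, Sub (z * g - E) (q i)

/-- a properly infinite projection contains two orthogonal copies of itself. -/
def PInfL : Prop := ∀ g : A, PI g →
  ∃ g1 g2 : A, PJ g1 ∧ PJ g2 ∧ g1 * g2 = 0 ∧ Le g1 g ∧ Le g2 g ∧ Eqv g g1 ∧ Eqv g g2

/-- two isometries with orthogonal ranges. -/
def PHalf : Prop := ∃ v1 v2 : A, star v1 * v1 = 1 ∧ star v2 * v2 = 1 ∧ star v1 * v2 = 0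

/-- the dichotomy for a properly infinite projection below `q + r`. -/
def PDichL : Prop := ∀ g q r : A, PI g → PJ q → PJ r → q * r = 0 → Sub g (q + r) →
  ∃ z : A, CP z ∧ Sub (z * g) (z * q) ∧ Sub ((1 - z) * g) ((1 - z) * r)

/-- small projections have a small join. -/
def PJoinL : Prop := ∀ g s t : A, PI g → PJ s → PJ t → Le s g → Le t g → Small g s →
  Small g t → ∃ c : A, PJ c ∧ Le c g ∧ Le s c ∧ Le t c ∧ Small g c

/-- the reducing hull of a properly infinite projection is not larger than the projection. -/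
def PHull : Prop := ∀ T g k : A, PJ g → g * T = T * g → PI k → Le k g →
  ∃ h : A, PI h ∧ Le h g ∧ Le k h ∧ T * h = h * T ∧ Sub h k

/-- Main, step 1. -/
def PMain1L : Prop := ∀ ε : ℝ, 0 < ε → ∀ g T : A, PI g → g * T = T → T * g = T →
  (∀ z : A, CP z → z * g ≠ 0 → ¬ CA (4 / ε) (z * g) (z * T)) →
  ∀ e : A, PJ e → Le e g → ∃ c : A, PJ c ∧ Le c g ∧ Small g c ∧
    ‖(g - e) * T * e * (g - c)‖ ≤ ε ∧ ‖(g - e) * star T * e * (g - c)‖ ≤ ε

/-- Main, step 3. -/
def PMain3L : Prop := ∀ g a : A, PI g → g ≠ 0 → star a = a → a * g = a →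
  (∀ e : A, PJ e → Le e g → ∃ c : A, PJ c ∧ Le c g ∧ Small g c ∧
    ‖(g - e) * a * e * (g - c)‖ ≤ 1 / 1000) →
  ∃ z : A, CP z ∧ z * g ≠ 0 ∧ ∃ (s : A) (c : ℝ), PJ s ∧ Le s (z * g) ∧ Small (z * g) s ∧
    ‖z * (a - (c : ℂ) • g) * (g - s)‖ ≤ 1 / 32

/-- the main dichotomy, after a central cut. -/
def PMainL : Prop := ∀ g T : A, PI g → g ≠ 0 → g * T = T → T * g = T →
  ∃ z : A, CP z ∧ z * g ≠ 0 ∧ (CA 4000 (z * g) (z * T) ∨
    ∃ (k : A) (c : ℂ), PJ k ∧ Le k (z * g) ∧ Small (z * g) k ∧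
      ‖(z * g - k) * (T - c • g) * (z * g - k)‖ ≤ 1 / 4)

/-- alternative A gives a clean decomposition. -/
def PCaseAL : Prop := ∀ (K : ℝ) (g T : A), PI g → g * T = T → T * g = T → CA K g T → CleanIn g T

/-- complements of equivalent projections in a finite projection. -/
def PFinC : Prop := ∀ g k h : A, PJ g → ¬ Infin g → PJ k → PJ h → Le k g → Le h g → Eqv k h →
  Eqv (g - k) (g - h)

/-- many copies of `g'` in `g`, after a central cut. -/
def PW1L : Prop := ∀ g g' : A, PI g → PI g' → Le g' g → Small g g' → g ≠ 0 →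
  (∀ z : A, CP z → z * g ≠ 0 → z * g' ≠ 0) →
  ∃ z : A, CP z ∧ z * g ≠ 0 ∧ ∃ (ι : Type u) (q : ι → A) (E : A), Infinite ι ∧
    (∀ i, PJ (q i)) ∧ (∀ i j, i ≠ j → q i * q j = 0) ∧ (∀ i, Le (q i) (z * g)) ∧
    (∀ i, Eqv (z * g') (q i)) ∧ IsSup q E ∧ Sub (z * g - E) (z * g')

/-- calculus of clean corners with bounds. -/
def PCB : Prop :=
  (∀ (r T : A) (c : ℂ), PJ r → ‖r * (T - c • (1 : A)) * r‖ ≤ 1 / 4 → CB r T) ∧
  (∀ r T z : A, CP z → PJ r → CB r T → CB (z * r) T) ∧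
  (∀ r s T : A, PJ r → PJ s → r * s = 0 → r * T = T * r → s * T = T * s → CB r T → CB s T →
    CB (r + s) T)

/-- gluing of alternative A. -/
def PGA : Prop := ∀ (T : A) (ι : Type u) (w : ι → A) (z : A), (∀ i, CP (w i)) →
  (∀ i j, i ≠ j → w i * w j = 0) → CP z → IsSup w z → (∀ i, DA T (w i)) → DA T z

/-- gluing of alternative B. -/
def PGB : Prop := ∀ (T : A) (ι : Type u) (w : ι → A) (z : A), (∀ i, CP (w i)) →
  (∀ i j, i ≠ j → w i * w j = 0) → CP z → IsSup w z → (∀ i, DB T (w i)) → DB T z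

/-- one step of the descent. -/
def PStep : Prop := ∀ T z g : A, CP z → z ≠ 0 → PI g → Le g z → T * g = g * T →
  (∀ w : A, CP w → w * z = w → w ≠ 0 → w * g ≠ 0) → CB (z - g) T →
  ∃ z' : A, CP z' ∧ z' ≠ 0 ∧ z' * z = z' ∧ (DA T z' ∨ DB T z' ∨
    ∃ h : A, PI h ∧ Le h (z' * g) ∧ T * h = h * T ∧
      (∀ w : A, CP w → w * z' = w → w ≠ 0 → w * h ≠ 0) ∧ CB (z' - h) T ∧ Small (z' * g) h)

/-- the descent: locally one of the final alternatives holds. -/
def PDesc : Prop := PI (1 : A) → ∀ T z : A, CP z → z ≠ 0 →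
  ∃ z' : A, CP z' ∧ z' ≠ 0 ∧ z' * z = z' ∧ (DA T z' ∨ DB T z')

/-- the final alternatives hold on two complementary central projections. -/
def PGlob : Prop := ∀ T : A, ∃ z : A, CP z ∧ DA T z ∧ DB T (1 - z)

end props

/-! ## The packages -/

/-- Package CUTU. -/
def S_CUTU : Prop := ∀ (A : Type u) [CStarAlgebra A], PSa A → PCutU A
/-- Package NRM. -/
def S_NRM : Prop := ∀ (A : Type u) [CStarAlgebra A], PSa A → PNorm A
/-- Package GLUE. -/
def S_GLUE : Prop := ∀ (A : Type u) [CStarAlgebra A], PSa A → PSupO A → PNorm A → PGlue A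
/-- Package CS. -/
def S_CS : Prop := ∀ (A : Type u) [CStarAlgebra A], PSup A → PCut A → PZ0 A
/-- Package ZORN. -/
def S_ZORN : Prop := ∀ (A : Type u) [CStarAlgebra A], PSupO A → PZorn A
/-- Package GCO. -/
def S_GCO : Prop := ∀ (A : Type u) [CStarAlgebra A], PCut A → PSupO A → PZ0 A → PAddO A → PGCO A
/-- Package INF1. -/
def S_INF1 : Prop := ∀ (A : Type u) [CStarAlgebra A], PSup A → PAddO A → PGCO A → PInf1L A
/-- Package INF2. -/
def S_INF2 : Prop := ∀ (A : Type u) [CStarAlgebra A], PSup A → PAddO A → PZorn A → PGlue A →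
  PInf1L A → PInfL A
/-- Package ADD. -/
def S_ADD : Prop := ∀ (A : Type u) [CStarAlgebra A], PHalf A → PAddO A → PAdd A
/-- Package GC. -/
def S_GC : Prop := ∀ (A : Type u) [CStarAlgebra A], PHalf A → PGCO A → PGC A
/-- Package DICH. -/
def S_DICH : Prop := ∀ (A : Type u) [CStarAlgebra A], PInfL A → PLR A → PGC A → PDichL A
/-- Package JOIN. -/
def S_JOIN : Prop := ∀ (A : Type u) [CStarAlgebra A], PLR A → PDichL A → PJoinL A
/-- Package HULL. -/
def S_HULL : Prop := ∀ (A : Type u) [CStarAlgebra A], PSup A → PLR A → PAdd A → PInfL A →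
  PSB A → PHull A
/-- Package MAIN1. -/
def S_MAIN1 : Prop := ∀ (A : Type u) [CStarAlgebra A], PCutU A → PJoinL A → PMain1L A
/-- Package MAIN3. -/
def S_MAIN3 : Prop := ∀ (A : Type u) [CStarAlgebra A], PSa A → PDichL A → PMain3L A
/-- Package MAIN. -/
def S_MAIN : Prop := ∀ (A : Type u) [CStarAlgebra A], PMain1L A → PMain3L A → PJoinL A → PMainL A
/-- Package CASEA. -/
def S_CASEA : Prop := ∀ (A : Type u) [CStarAlgebra A], PCut A → PInfL A → PSB A → PCaseAL A
/-- Package FINC. -/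
def S_FINC : Prop := ∀ (A : Type u) [CStarAlgebra A], PGC A → PFinC A
/-- Package FIN. -/
def S_FIN : Prop := ∀ (A : Type u) [CStarAlgebra A], PCut A → PFinC A → PFin A
/-- Package W1. -/
def S_W1 : Prop := ∀ (A : Type u) [CStarAlgebra A], PSup A → PInfL A → PAdd A → PGC A → PW1L A
/-- Package STEP. -/
def S_STEP : Prop := ∀ (A : Type u) [CStarAlgebra A], PCB A → PMainL A → PHull A → PStep A
/-- Package CB. -/
def S_CB : Prop := ∀ (A : Type u) [CStarAlgebra A], PCB A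
/-- Package DESC. -/
def S_DESC : Prop := ∀ (A : Type u) [CStarAlgebra A], PCB A → PStep A → PW1L A → PW2 A → PDesc A
/-- Package GA. -/
def S_GA : Prop := ∀ (A : Type u) [CStarAlgebra A], PGlue A → PNorm A → PGA A
/-- Package GB. -/
def S_GB : Prop := ∀ (A : Type u) [CStarAlgebra A], PGlue A → PNorm A → PGB A
/-- Package GLOB. -/
def S_GLOB : Prop := ∀ (A : Type u) [CStarAlgebra A], PI (1 : A) → PSup A → PZorn A →
  PDesc A → PGA A → PGB A → PGlob A
/-- Package FINAL. -/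
def S_FINAL : Prop := ∀ (A : Type u) [CStarAlgebra A], PCaseAL A → PFin A → PGlob A →
  ∀ T : A, CleanIn 1 T

end Pool.Agent.U84.AWQ
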