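import Pool.Agent.U84.AWQ.Asm2
import Pool.Agent.U928.AWQ.HULL
import Pool.Agent.U492.AWQ.DESC
import Pool.Agent.U461.AWQ.MAIN3
import Pool.Agent.U843.AWQ.GLUE
import Pool.Agent.U139.AWQ.INF2
import Pool.Agent.U450.AWQ.STEP
import Pool.Agent.U128.AWQ.GA
import Pool.Agent.U364.AWQ.MAIN1
import Pool.Agent.U438.AWQ.W1
import Pool.Agent.U898.AWQ.GB
import Pool.Agent.U511.AWQ.CASEA
import Pool.Agent.U458.AWQ.MAIN
import Pool.Agent.U429.AWQ.INF1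
import Pool.Agent.U141.AWQ.FINAL
import Pool.Agent.U962.AWQ.GCO
import Pool.Agent.U346.AWQ.CB
import Pool.Agent.U864.AWQ.GLOB
import Pool.Agent.U452.AWQ.NRM
import Pool.Agent.U618.AWQ.ZORN
import Pool.Agent.U460.AWQ.DICH
import Pool.Agent.U690.AWQ.JOIN
import Pool.Agent.U796.AWQ.FINC
import Pool.Agent.U934.AWQ.CUTU
import Pool.Agent.U606.AWQ.CS
import Pool.Agent.U981.AWQ.ADD
import Pool.Agent.U329.AWQ.GC
import Pool.Agent.U72.AWQ.FIN

/-! All packages of the first part of project AWQ. -/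

set_option autoImplicit false

namespace Pool.Agent.U84.AWQ

universe u

theorem packs : Packs.{u} where
  cutu := Pool.Agent.U934.AWQ.t_CUTU
  nrm := Pool.Agent.U452.AWQ.t_NRM
  glue := Pool.Agent.U843.AWQ.t_GLUE
  cs := Pool.Agent.U606.AWQ.t_CS
  zorn := Pool.Agent.U618.AWQ.t_ZORN
  gco := Pool.Agent.U962.AWQ.t_GCO
  inf1 := Pool.Agent.U429.AWQ.t_INF1
  inf2 := Pool.Agent.U139.AWQ.t_INF2
  add := Pool.Agent.U981.AWQ.t_ADD
  dich := Pool.Agent.U460.AWQ.t_DICH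
  join := Pool.Agent.U690.AWQ.t_JOIN
  hull := Pool.Agent.U928.AWQ.t_HULL
  main1 := Pool.Agent.U364.AWQ.t_MAIN1
  main3 := Pool.Agent.U461.AWQ.t_MAIN3
  main := Pool.Agent.U458.AWQ.t_MAIN
  casea := Pool.Agent.U511.AWQ.t_CASEA
  finc := Pool.Agent.U796.AWQ.t_FINC
  fin := Pool.Agent.U72.AWQ.t_FIN
  w1 := Pool.Agent.U438.AWQ.t_W1
  cb := Pool.Agent.U346.AWQ.t_CB
  step := Pool.Agent.U450.AWQ.t_STEP
  desc := Pool.Agent.U492.AWQ.t_DESC
  ga := Pool.Agent.U128.AWQ.t_GA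
  gb := Pool.Agent.U898.AWQ.t_GB
  glob := Pool.Agent.U864.AWQ.t_GLOB
  final := Pool.Agent.U141.AWQ.t_FINAL
  gc := Pool.Agent.U329.AWQ.t_GC

end Pool.Agent.U84.AWQ
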