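import Pool.Agent.U84.AWQ.Pk
import Pool.Agent.U2.AWQ.SUM
import Pool.Agent.U97.AWQ.CDEC
import Pool.Agent.U981.AWQ.GCA
import Pool.Agent.U505.AWQ.CORN

/-! Every AW*-algebra is clean, from the last remaining package. -/

set_option autoImplicit false

namespace Pool.Agent.U84.AWQ

open Pool.Agent.R456.CL

universe u

theorem awstar_of (pos : S_POS.{u}) (A : Type u) [CStarAlgebra A]
    (hAW : IsAWStar A) (x : A) : ∃ (v : Aˣ) (e : A), e * e = e ∧ x = (v : A) + e :=
  assembly_all packs pos Pool.Agent.U981.AWQ.t_GCA Pool.Agent.U97.AWQ.t_CDEC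
    Pool.Agent.U2.AWQ.t_SUM Pool.Agent.U505.AWQ.t_CORN A hAW x

end Pool.Agent.U84.AWQ
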